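import Pool.Agent.Helper52.NF.St3

set_option autoImplicit false

namespace Pool.Agent.Helper53.NF

open Pool.Agent.Helper52.NF Finset

section
open Classical

theorem hFCY (hN : StNCY) : StFCY := by
  intro V _ G rot φ hP σ S hS hcl
  obtain ⟨_, hr1, _, hφ, _⟩ := hP
  set χ : Fc φ → ZMod 2 := fun f => if (Sum.inl f : Fc φ ⊕ V) ∈ S then 1 else 0 with hχ
  have hrot : ∀ d : G.Dart, fc φ d.symm = fc φ (rot d) := by
    intro d
    have h1 : φ d.symm = rot d := by
      rw [hφ, SimpleGraph.Dart.symm_symm]
    rw [← h1]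
    unfold fc
    apply Quotient.sound
    exact ⟨1, by simp⟩
  set H : Finset (Sym2 V) := ((Finset.univ : Finset G.Dart).filter
    (fun d => χ (fc φ d) + χ (fc φ d.symm) = 1)).image SimpleGraph.Dart.edge with hH
  have hHd : ∀ d : G.Dart, d.edge ∈ H ↔ χ (fc φ d) + χ (fc φ d.symm) = 1 := by
    intro d
    constructor
    · intro h
      rw [hH, Finset.mem_image] at h
      obtain ⟨d', h1, h2⟩ := h
      rw [Finset.mem_filter] at h1
      rcases (SimpleGraph.dart_edge_eq_iff d' d).1 h2 with h3 | h3
      · rw [← h3]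
        exact h1.2
      · have h4 := h1.2
        rw [h3, SimpleGraph.Dart.symm_symm, add_comm] at h4
        exact h4
    · intro h
      rw [hH, Finset.mem_image]
      exact ⟨d, Finset.mem_filter.2 ⟨Finset.mem_univ _, h⟩, rfl⟩
  have hif : ∀ d : G.Dart, (if d.edge ∈ H then (1 : ZMod 2) else 0) =
      χ (fc φ d) + χ (fc φ d.symm) := by
    intro d
    by_cases h : d.edge ∈ H
    · rw [if_pos h, (hHd d).1 h]
    · rw [if_neg h]
      rcases z01 (χ (fc φ d) + χ (fc φ d.symm)) with h1 | h1
      · exact h1.symm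
      · exact absurd ((hHd d).2 h1) h
  have hHe : ∀ e ∈ H, e ∈ G.edgeSet := by
    intro e he
    rw [hH, Finset.mem_image] at he
    obtain ⟨d, _, rfl⟩ := he
    exact d.edge_mem
  have hEv : ∀ v : V, ∑ d ∈ Finset.univ.filter (fun d : G.Dart => d.fst = v),
      (if d.edge ∈ H then (1 : ZMod 2) else 0) = 0 := by
    intro v
    rw [Finset.sum_congr rfl (fun d _ => hif d), Finset.sum_add_distrib]
    have h1 : ∑ d ∈ Finset.univ.filter (fun d : G.Dart => d.fst = v), χ (fc φ d.symm) =
        ∑ d ∈ Finset.univ.filter (fun d : G.Dart => d.fst = v), χ (fc φ d) := by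
      rw [Finset.sum_congr rfl (fun d _ => by rw [hrot d])]
      refine Finset.sum_equiv rot ?_ ?_
      · intro d
        simp only [Finset.mem_filter, Finset.mem_univ, true_and]
        rw [hr1 d]
      · intro d _
        rfl
    rw [h1]
    exact zz _
  have hft : ∑ x ∈ S, ft φ σ x =
      ∑ d ∈ (Finset.univ : Finset G.Dart).filter (fun d => ea φ d ∈ S), σ d.edge := by
    rw [← Finset.sum_fiberwise_of_maps_to (s := (Finset.univ : Finset G.Dart).filter
      (fun d => ea φ d ∈ S)) (t := S) (g := fun d => ea φ d)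
      (fun d hd => (Finset.mem_filter.1 hd).2)]
    refine Finset.sum_congr rfl fun x hx => ?_
    cases x with
    | inl f =>
      change fs φ σ f = _
      unfold fs
      refine Finset.sum_congr ?_ fun _ _ => rfl
      ext d
      simp only [Finset.mem_filter, Finset.mem_univ, true_and]
      constructor
      · intro h
        have h2 : ea φ d = Sum.inl f := by
          unfold ea
          rw [h]
        exact ⟨by rw [h2]; exact hx, h2⟩
      · rintro ⟨_, h⟩
        exact Sum.inl_injective h
    | inr v =>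
      change (0 : ZMod 2) = _
      symm
      refine Finset.sum_eq_zero fun d hd => ?_
      rw [Finset.mem_filter] at hd
      exact absurd hd.2 (by unfold ea; simp)
  have hsum : ∑ e ∈ H, σ e = 1 := by
    rw [← hS, hft]
    have h1 : ∑ d ∈ (Finset.univ : Finset G.Dart).filter (fun d => ea φ d ∈ S), σ d.edge =
        ∑ d : G.Dart, χ (fc φ d) * σ d.edge := by
      rw [Finset.sum_filter]
      refine Finset.sum_congr rfl fun d _ => ?_
      by_cases h : ea φ d ∈ S
      · have h2 : χ (fc φ d) = 1 := if_pos h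
        rw [if_pos h, h2, one_mul]
      · have h2 : χ (fc φ d) = 0 := if_neg h
        rw [if_neg h, h2, zero_mul]
    rw [h1, ← Finset.sum_fiberwise_of_maps_to (s := (Finset.univ : Finset G.Dart))
      (t := (Finset.univ : Finset G.Dart).image SimpleGraph.Dart.edge)
      (g := SimpleGraph.Dart.edge) (fun d _ => Finset.mem_image_of_mem _ (Finset.mem_univ d))]
    have h3 : ∀ e ∈ (Finset.univ : Finset G.Dart).image SimpleGraph.Dart.edge,
        (∑ d ∈ Finset.univ.filter (fun d : G.Dart => d.edge = e), χ (fc φ d) * σ d.edge) =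
          if e ∈ H then σ e else 0 := by
      intro e he
      rw [Finset.mem_image] at he
      obtain ⟨d, _, rfl⟩ := he
      have h4 : Finset.univ.filter (fun d' : G.Dart => d'.edge = d.edge) = {d, d.symm} := by
        ext d'
        simp only [Finset.mem_filter, Finset.mem_univ, true_and, Finset.mem_insert,
          Finset.mem_singleton]
        exact SimpleGraph.dart_edge_eq_iff d' d
      rw [h4, Finset.sum_pair d.symm_ne.symm, SimpleGraph.Dart.edge_symm, ← add_mul, ← hif d]
      by_cases h : d.edge ∈ H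
      · rw [if_pos h, if_pos h, one_mul]
      · rw [if_neg h, if_neg h, zero_mul]
    rw [Finset.sum_congr rfl h3, ← Finset.sum_filter]
    refine Finset.sum_congr ?_ fun _ _ => rfl
    ext e
    rw [Finset.mem_filter]
    constructor
    · intro h
      refine ⟨?_, h⟩
      rw [hH, Finset.mem_image] at h
      obtain ⟨d, _, rfl⟩ := h
      exact Finset.mem_image_of_mem _ (Finset.mem_univ d)
    · exact fun h => h.2
  obtain ⟨b, C, hC, hC1, hC2⟩ := hN V G σ H hHe hEv hsum
  refine ⟨b, C, hC, hC1, ?_⟩
  intro x hx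
  obtain ⟨e, he, hxe⟩ := (SimpleGraph.Walk.mem_support_iff_exists_mem_edges_of_not_nil
    hC.not_nil).1 hx
  have heH := hC2 e he
  have heG := hHe e heH
  obtain ⟨y, rfl⟩ := Sym2.mem_iff_exists.1 hxe
  set d : G.Dart := ⟨(x, y), heG⟩ with hd
  have hde : d.edge = s(x, y) := rfl
  have hdx : d.fst = x := rfl
  have hrx : (rot d).fst = x := (hr1 d).trans hdx
  have h1 : χ (fc φ d) + χ (fc φ (rot d)) = 1 := by
    rw [← hrot d]
    exact (hHd d).1 (by rw [hde]; exact heH)
  have hxS : (Sum.inr x : Fc φ ⊕ V) ∉ S := by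
    intro hxS
    have h2 : ea φ d ∈ S := hcl d hxS
    have h3 : ea φ (rot d) ∈ S := hcl (rot d) (by unfold eb; rw [hrx]; exact hxS)
    have h4 : χ (fc φ d) = 1 := if_pos h2
    have h5 : χ (fc φ (rot d)) = 1 := if_pos h3
    rw [h4, h5] at h1
    exact absurd h1 (by decide)
  by_cases h2 : ea φ d ∈ S
  · exact ⟨d, hdx, h2, hxS⟩
  · refine ⟨rot d, hrx, ?_, by unfold eb; rw [hrx]; exact hxS⟩
    by_contra h3
    have h4 : χ (fc φ d) = 0 := if_neg h2
    have h5 : χ (fc φ (rot d)) = 0 := if_neg h3
    rw [h4, h5] at h1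
    exact absurd h1 (by decide)

end

end Pool.Agent.Helper53.NF
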