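import Pool.Agent.Helper52.NF.St

set_option autoImplicit false

namespace Pool.Agent.Helper53.NF

open Pool.Agent.Helper52.NF Finset

private lemma other_end {ε N : Type} [DecidableEq ε] [DecidableEq N] (α β : ε → N) (e : ε) (u : N)
    (hl : α e ≠ β e) (h : At α β u e) :
    ∃ z, z ≠ u ∧ ∀ x, pt (α e) x + pt (β e) x = pt u x + pt z x := by
  rcases h with h | h
  · exact ⟨β e, fun hz => hl (h.trans hz.symm), fun x => by rw [h]⟩
  · exact ⟨α e, fun hz => hl (hz.trans h.symm), fun x => by rw [h, add_comm]⟩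

theorem hS2 (h2 : StL2) (h0 : StS0) : StS2 := by
  intro ε N _ _ α β E J P u v hl hC hM
  obtain ⟨hPE, hIs, hwt, hmin⟩ := hM
  obtain ⟨P₁, hP₁, hIs₁, e₁, he₁, hat, huni⟩ := h2 ε N α β P u v (fun e he => hl e (hPE he)) hIs
  have hE : ∀ P' ⊆ P, (∀ x, bd α β P' x = 0) → P' = ∅ :=
    h0 ε N α β E J P u v hC ⟨hPE, hIs, hwt, hmin⟩
  have hPP : P₁ = P := by
    have h3 := hE (P \ P₁) Finset.sdiff_subset (fun x => by
      rw [bd_sdiff α β hP₁, hIs.2, hIs₁.2]
      exact zz _)
    exact Finset.Subset.antisymm hP₁ (Finset.sdiff_eq_empty_iff_subset.1 h3)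
  subst hPP
  obtain ⟨z, hz, hzb⟩ := other_end α β e₁ u (hl e₁ (hPE he₁)) hat
  have hJ : e₁ ∈ J := by
    by_contra hJ
    have hb : ∀ x, bd α β (P₁.erase e₁) x = pt z x + pt v x := by
      intro x
      rw [bd_erase α β he₁, hIs.2, hzb]
      linear_combination zz (pt u x)
    have hw : wt J (P₁.erase e₁) = wt J P₁ - 1 := by
      rw [← Finset.sdiff_singleton_eq_erase, wt_sdiff J (Finset.singleton_subset_iff.2 he₁),
        wt_singleton_notMem hJ]
    by_cases hzv : z = v
    · have h3 := hE (P₁.erase e₁) (Finset.erase_subset _ _) (fun x => by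
        rw [hb, hzv]
        exact zz _)
      rw [h3, wt_empty] at hw
      omega
    · have h3 := hmin (P₁.erase e₁) ((Finset.erase_subset _ _).trans hPE) z v ⟨hzv, hb⟩
      omega
  refine ⟨e₁, hJ, he₁, hat, ?_, huni⟩
  intro e heJ hea
  by_cases heP : e ∈ P₁
  · exact huni e heP hea
  · exfalso
    have heE : e ∈ E := hC.1 heJ
    obtain ⟨z', hz', hzb'⟩ := other_end α β e u (hl e heE) hea
    have hb : ∀ x, bd α β (insert e P₁) x = pt z' x + pt v x := by
      intro x
      rw [bd_insert α β heP, hIs.2, hzb']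
      linear_combination zz (pt u x)
    have hw : wt J (insert e P₁) = wt J P₁ - 1 := by
      rw [Finset.insert_eq, wt_union J (Finset.disjoint_singleton_left.2 heP),
        wt_singleton_mem heJ]
      ring
    have hsub : insert e P₁ ⊆ E := Finset.insert_subset heE hPE
    by_cases hzv : z' = v
    · have h3 := hC.2 (insert e P₁) hsub (fun x => by
        rw [hb, hzv]
        exact zz _)
      omega
    · have h3 := hmin (insert e P₁) hsub z' v ⟨hzv, hb⟩
      omega

end Pool.Agent.Helper53.NF
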